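import Pool.Agent.Lib.MP_defcf3_al.BR.StageI

/-!
Project BR7, stage 2, module CONV (helper19): algebras of the same degree with the same factor set are isomorphic.
-/

namespace BR7.H19

open BR7

universe u v

/-- Over a finite-dimensional simple algebra, a module of the dimension of the algebra is free of rank one. -/
theorem equiv_of_finrank {F : Type u} [Field F] {A : Type u} [Ring A] [Algebra F A] [IsSimpleRing A]
    [FiniteDimensional F A] {W : Type v} [AddCommGroup W] [Module F W] [Module A W]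
    [IsScalarTower F A W] [FiniteDimensional F W] (hd : Module.finrank F W = Module.finrank F A) :
    Nonempty (A ≃ₗ[A] W) := by
  have : IsArtinianRing A := IsArtinianRing.of_finite F A
  have : Module.Finite A W := Module.Finite.of_restrictScalars_finite F A W
  obtain ⟨S, hS⟩ := IsAtomic.exists_atom (Submodule A (A × W))
  rw [← isSimpleModule_iff_isAtom] at hS
  have hfd : FiniteDimensional F S :=
    FiniteDimensional.of_injective (S.subtype.restrictScalars F) S.subtype_injective
  have h := IsSimpleRing.isIsotypic A (A × W) S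
  have h1 : IsIsotypicOfType A A S := h.of_injective (LinearMap.inl A A W) LinearMap.inl_injective
  have h2 : IsIsotypicOfType A W S := h.of_injective (LinearMap.inr A A W) LinearMap.inr_injective
  obtain ⟨k, ⟨e1⟩⟩ := h1.linearEquiv_fun
  obtain ⟨m, ⟨e2⟩⟩ := h2.linearEquiv_fun
  have f1 : Module.finrank F A = k * Module.finrank F S := by
    rw [(e1.restrictScalars F).finrank_eq, Module.finrank_pi_fintype]
    simp
  have f2 : Module.finrank F W = m * Module.finrank F S := by
    rw [(e2.restrictScalars F).finrank_eq, Module.finrank_pi_fintype]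
    simp
  have hpos : 0 < Module.finrank F S := by
    have := hS.nontrivial
    exact Module.finrank_pos
  have hkm : k = m := by
    apply Nat.eq_of_mul_eq_mul_right hpos
    omega
  subst hkm
  exact ⟨e1.trans e2.symm⟩

section Main

variable {F Ω : Type u} [Field F] [Field Ω] [Algebra F Ω] [IsGalois F Ω]
  {n : Type v} [Fintype n] [DecidableEq n]

/-- The semilinear action on matrices given by two twists. -/
def rho (u u' : (Ω ≃ₐ[F] Ω) → (Matrix n n Ω)ˣ) (g : Ω ≃ₐ[F] Ω) (M : Matrix n n Ω) : Matrix n n Ω :=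
  (u g : Matrix n n Ω) * M.map g * (↑(u' g)⁻¹ : Matrix n n Ω)

omit [IsGalois F Ω] [DecidableEq n] in
theorem map_mul' (g : Ω ≃ₐ[F] Ω) (M N : Matrix n n Ω) : (M * N).map g = M.map g * N.map g :=
  Matrix.map_mul

omit [IsGalois F Ω] in
theorem map_inv' (g : Ω ≃ₐ[F] Ω) (M : (Matrix n n Ω)ˣ) :
    (↑M⁻¹ : Matrix n n Ω).map g * (M : Matrix n n Ω).map g = 1 := by
  rw [← map_mul', Units.inv_mul]
  exact Matrix.map_one _ (map_zero g) (map_one g)

omit [IsGalois F Ω] in
theorem rho_add (u u' : (Ω ≃ₐ[F] Ω) → (Matrix n n Ω)ˣ) (g : Ω ≃ₐ[F] Ω) (M N : Matrix n n Ω) :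
    rho u u' g (M + N) = rho u u' g M + rho u u' g N := by
  have : (M + N).map g = M.map g + N.map g := Matrix.map_add _ (fun a b => map_add g a b) M N
  simp only [rho, this, Matrix.mul_add, Matrix.add_mul]

omit [IsGalois F Ω] in
theorem rho_smul (u u' : (Ω ≃ₐ[F] Ω) → (Matrix n n Ω)ˣ) (g : Ω ≃ₐ[F] Ω) (c : Ω) (M : Matrix n n Ω) :
    rho u u' g (c • M) = g c • rho u u' g M := by
  have : (c • M).map g = g c • M.map g := by
    ext i j
    simp
  simp only [rho, this, Matrix.mul_smul, Matrix.smul_mul]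

omit [IsGalois F Ω] [Fintype n] [DecidableEq n] in
theorem map_comp' (g h : Ω ≃ₐ[F] Ω) (M : Matrix n n Ω) : M.map (g * h : Ω ≃ₐ[F] Ω) = (M.map h).map g := by
  ext i j
  simp

omit [IsGalois F Ω] in
theorem rho_mul (u u' : (Ω ≃ₐ[F] Ω) → (Matrix n n Ω)ˣ) (f : (Ω ≃ₐ[F] Ω) → (Ω ≃ₐ[F] Ω) → Ωˣ)
    (hu : ∀ g h : Ω ≃ₐ[F] Ω, (u g : Matrix n n Ω) * (u h : Matrix n n Ω).map g =
      (f g h : Ω) • (u (g * h) : Matrix n n Ω))
    (hu' : ∀ g h : Ω ≃ₐ[F] Ω, (u' g : Matrix n n Ω) * (u' h : Matrix n n Ω).map g =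
      (f g h : Ω) • (u' (g * h) : Matrix n n Ω)) (g h : Ω ≃ₐ[F] Ω) (M : Matrix n n Ω) :
    rho u u' (g * h) M = rho u u' g (rho u u' h M) := by
  have key : (↑(u' h)⁻¹ : Matrix n n Ω).map g * (↑(u' g)⁻¹ : Matrix n n Ω) =
      ((f g h : Ωˣ)⁻¹ : Ωˣ).val • (↑(u' (g * h))⁻¹ : Matrix n n Ω) := by
    have e1 : ((f g h : Ωˣ)⁻¹ : Ωˣ).val • (↑(u' (g * h))⁻¹ : Matrix n n Ω) *
        ((u' g : Matrix n n Ω) * (u' h : Matrix n n Ω).map g) = 1 := by
      rw [hu', Matrix.smul_mul, Matrix.mul_smul, smul_smul, Units.inv_mul, one_smul, Units.inv_mul]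
    have e2 : (↑(u' h)⁻¹ : Matrix n n Ω).map g * (↑(u' g)⁻¹ : Matrix n n Ω) *
        ((u' g : Matrix n n Ω) * (u' h : Matrix n n Ω).map g) = 1 := by
      rw [Matrix.mul_assoc, ← Matrix.mul_assoc _ (u' g : Matrix n n Ω), Units.inv_mul, Matrix.one_mul,
        map_inv']
    have e3 := mul_eq_one_comm.1 e1
    calc _ = (↑(u' h)⁻¹ : Matrix n n Ω).map g * (↑(u' g)⁻¹ : Matrix n n Ω) *
        (((u' g : Matrix n n Ω) * (u' h : Matrix n n Ω).map g) *
          (((f g h : Ωˣ)⁻¹ : Ωˣ).val • (↑(u' (g * h))⁻¹ : Matrix n n Ω))) := by rw [e3, Matrix.mul_one]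
      _ = _ := by rw [← Matrix.mul_assoc, e2, Matrix.one_mul]
  unfold rho
  rw [map_mul', map_mul', ← map_comp']
  calc (u (g * h) : Matrix n n Ω) * M.map (g * h : Ω ≃ₐ[F] Ω) * (↑(u' (g * h))⁻¹ : Matrix n n Ω)
      = ((f g h : Ω) • (u (g * h) : Matrix n n Ω)) * M.map (g * h : Ω ≃ₐ[F] Ω) *
        (((f g h : Ωˣ)⁻¹ : Ωˣ).val • (↑(u' (g * h))⁻¹ : Matrix n n Ω)) := by
        rw [Matrix.smul_mul, Matrix.smul_mul, Matrix.mul_smul, smul_smul, Units.mul_inv, one_smul]
    _ = _ := by
        rw [← hu, ← key]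
        simp only [Matrix.mul_assoc]

omit [IsGalois F Ω] in
theorem u_one (u : (Ω ≃ₐ[F] Ω) → (Matrix n n Ω)ˣ) (f : (Ω ≃ₐ[F] Ω) → (Ω ≃ₐ[F] Ω) → Ωˣ)
    (hu : ∀ g h : Ω ≃ₐ[F] Ω, (u g : Matrix n n Ω) * (u h : Matrix n n Ω).map g =
      (f g h : Ω) • (u (g * h) : Matrix n n Ω)) : (u 1 : Matrix n n Ω) = (f 1 1 : Ω) • 1 := by
  have h := hu 1 1
  have h2 : (u 1 : Matrix n n Ω).map (1 : Ω ≃ₐ[F] Ω) = u 1 := by
    ext i j
    simp
  rw [h2, mul_one] at h
  calc (u 1 : Matrix n n Ω) = (u 1 : Matrix n n Ω) * ((u 1 : Matrix n n Ω) * (↑(u 1)⁻¹ : Matrix n n Ω)) := by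
        rw [Units.mul_inv, Matrix.mul_one]
    _ = (f 1 1 : Ω) • 1 := by
        rw [← Matrix.mul_assoc, h, Matrix.smul_mul, Units.mul_inv]

omit [IsGalois F Ω] in
theorem rho_one (u u' : (Ω ≃ₐ[F] Ω) → (Matrix n n Ω)ˣ) (f : (Ω ≃ₐ[F] Ω) → (Ω ≃ₐ[F] Ω) → Ωˣ)
    (hu : ∀ g h : Ω ≃ₐ[F] Ω, (u g : Matrix n n Ω) * (u h : Matrix n n Ω).map g =
      (f g h : Ω) • (u (g * h) : Matrix n n Ω))
    (hu' : ∀ g h : Ω ≃ₐ[F] Ω, (u' g : Matrix n n Ω) * (u' h : Matrix n n Ω).map g =
      (f g h : Ω) • (u' (g * h) : Matrix n n Ω)) (M : Matrix n n Ω) :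
    rho u u' 1 M = M := by
  have h1 := u_one u f hu
  have h2 := u_one u' f hu'
  have h3 : M.map (1 : Ω ≃ₐ[F] Ω) = M := by
    ext i j
    simp
  have h4 : (u 1 : Matrix n n Ω) * M = M * (u' 1 : Matrix n n Ω) := by
    rw [h1, h2, Matrix.smul_mul, Matrix.mul_smul, Matrix.one_mul, Matrix.mul_one]
  rw [rho, h3, h4, Matrix.mul_assoc, Units.mul_inv, Matrix.mul_one]

theorem isOpen_stab (c : Ω) : IsOpen {g : Ω ≃ₐ[F] Ω | g c = c} := by
  have h := stabilizer_isOpen_of_isIntegral (K := F) (L := Ω) c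
  exact h

omit [DecidableEq n] in
theorem lc_map (M : Matrix n n Ω) : IsLocallyConstant (fun g : Ω ≃ₐ[F] Ω => M.map g) := by
  rw [IsLocallyConstant.iff_eventually_eq]
  intro g
  have h : ∀ i j, ∀ᶠ g' in nhds g, g' (M i j) = g (M i j) := by
    intro i j
    have h1 : IsOpen {g' : Ω ≃ₐ[F] Ω | g' (M i j) = g (M i j)} := by
      have h2 := (isOpen_stab (F := F) (M i j)).preimage (continuous_const_mul g⁻¹)
      refine Eq.mpr ?_ h2
      congr 1
      ext g'
      simp only [Set.mem_ofPred_eq, Set.mem_preimage, AlgEquiv.mul_apply]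
      constructor
      · intro h
        rw [h]
        exact AlgEquiv.symm_apply_apply g _
      · intro h
        have := congrArg g h
        rw [← AlgEquiv.mul_apply, mul_inv_cancel, AlgEquiv.one_apply] at this
        exact this
    exact h1.mem_nhds rfl
  have h3 : ∀ᶠ g' in nhds g, ∀ i j, g' (M i j) = g (M i j) := by
    rw [Filter.eventually_all]
    intro i
    rw [Filter.eventually_all]
    exact h i
  filter_upwards [h3] with g' hg'
  ext i j
  exact hg' i j

theorem rho_open (u u' : (Ω ≃ₐ[F] Ω) → (Matrix n n Ω)ˣ) (hu : IsLocallyConstant u)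
    (hu' : IsLocallyConstant u') (M : Matrix n n Ω) : IsOpen {g | rho u u' g M = M} := by
  have h : IsLocallyConstant (fun g => rho u u' g M) := by
    have h1 := lc_map (F := F) M
    rw [IsLocallyConstant.iff_eventually_eq] at hu hu' h1 ⊢
    intro g
    filter_upwards [hu g, hu' g, h1 g] with g' e1 e2 e3
    unfold rho
    rw [e1, e2]
    congr 2
  exact h.isOpen_fiber M

end Main

theorem conv (h1 : GalDescStatement.{u, max u v}) (h2 : RepCSAStatement.{u, v}) :
    ConvStatement.{u, v} := by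
  intro F Ω _ _ _ _ A B _ _ _ _ n _ _ f dA dB
  obtain ⟨_, hA2, hA3⟩ := h2 F Ω A n f dA
  obtain ⟨_, hB2, hB3⟩ := h2 F Ω B n f dB
  obtain ⟨b, hb1, hb2⟩ := h1 F Ω (Matrix n n Ω) (rho dA.u dB.u) (fun g v w => rho_add _ _ g v w)
    (fun g c v => rho_smul _ _ g c v) (fun g h v => rho_mul _ _ f dA.fac dB.fac g h v)
    (fun v => rho_one _ _ f dA.fac dB.fac v) (fun v => rho_open _ _ dA.lc dB.lc v)
  -- the action of A
  let _ : Module A (Matrix n n Ω) := Module.compHom _ dA.ι.toRingHom
  have hsm : ∀ (a : A) (M : Matrix n n Ω), a • M = dA.ι a * M := fun a M => rfl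
  have hst : IsScalarTower F A (Matrix n n Ω) := by
    refine ⟨fun c a M => ?_⟩
    rw [hsm, hsm, map_smul, Matrix.smul_mul]
  -- the invariants
  have hinvA : ∀ (a : A) (M : Matrix n n Ω) (g : Ω ≃ₐ[F] Ω), rho dA.u dB.u g (dA.ι a * M) =
      dA.ι a * rho dA.u dB.u g M := by
    intro a M g
    unfold rho
    rw [map_mul', dA.tw g a]
    simp only [Matrix.mul_assoc]
    rw [← Matrix.mul_assoc (dA.u g : Matrix n n Ω) (↑(dA.u g)⁻¹ : Matrix n n Ω), Units.mul_inv,
      Matrix.one_mul]
  have hinvB : ∀ (c : B) (M : Matrix n n Ω) (g : Ω ≃ₐ[F] Ω), rho dA.u dB.u g (M * dB.ι c) =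
      rho dA.u dB.u g M * dB.ι c := by
    intro c M g
    unfold rho
    rw [map_mul', dB.tw g c]
    simp only [Matrix.mul_assoc]
    rw [Units.mul_inv, Matrix.mul_one]
  let W : Submodule A (Matrix n n Ω) :=
    { carrier := {M | ∀ g, rho dA.u dB.u g M = M}
      add_mem' := by
        intro x y hx hy g
        rw [rho_add, hx g, hy g]
      zero_mem' := by
        intro g
        have := rho_smul dA.u dB.u g 0 0
        rwa [zero_smul, map_zero, zero_smul] at this
      smul_mem' := by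
        intro a x hx g
        rw [hsm, hinvA, hx g] }
  have hW : ∀ M, M ∈ W ↔ ∀ g, rho dA.u dB.u g M = M := fun M => Iff.rfl
  -- dimension of the invariants
  let Φ : (Fin (Module.finrank Ω (Matrix n n Ω)) → F) →ₗ[F] Matrix n n Ω :=
    { toFun := fun c => ∑ i, c i • b i
      map_add' := by
        intro x y
        simp only [Pi.add_apply, add_smul, Finset.sum_add_distrib]
      map_smul' := by
        intro r x
        simp only [Pi.smul_apply, smul_eq_mul, mul_smul, Finset.smul_sum, RingHom.id_apply] }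
  have hΦ : ∀ c, Φ c = ∑ i, algebraMap F Ω (c i) • b i := by
    intro c
    change ∑ i, c i • b i = _
    refine Finset.sum_congr rfl fun i _ => ?_
    rw [algebraMap_smul]
  have hΦinj : Function.Injective Φ := by
    intro x y hxy
    rw [hΦ, hΦ] at hxy
    funext i
    have h3 := congrArg (fun v => b.repr v i) hxy
    simp only [map_sum, map_smul, Module.Basis.repr_self, Finsupp.smul_single, smul_eq_mul, mul_one,
      Finsupp.coe_finsetSum, Finset.sum_apply, Finsupp.single_apply, Finset.sum_ite_eq',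
      Finset.mem_univ, if_true] at h3
    exact (algebraMap F Ω).injective h3
  have hΦW : LinearMap.range Φ = W.restrictScalars F := by
    ext M
    rw [LinearMap.mem_range, Submodule.restrictScalars_mem, hW]
    constructor
    · rintro ⟨c, rfl⟩ g
      rw [hΦ]
      have : ∀ s : Finset (Fin (Module.finrank Ω (Matrix n n Ω))), rho dA.u dB.u g
          (∑ i ∈ s, algebraMap F Ω (c i) • b i) = ∑ i ∈ s, algebraMap F Ω (c i) • b i := by
        classical
        intro s
        induction s using Finset.induction_on with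
        | empty =>
          rw [Finset.sum_empty]
          exact (hW 0).1 W.zero_mem g
        | insert i s hi ih =>
          rw [Finset.sum_insert hi, rho_add, ih, rho_smul, hb1]
          simp
      exact this _
    · intro hM
      have h3 := hb2 M hM
      choose c hc using h3
      refine ⟨c, ?_⟩
      rw [hΦ]
      calc ∑ i, algebraMap F Ω (c i) • b i = ∑ i, b.repr M i • b i := by
            refine Finset.sum_congr rfl fun i _ => ?_
            rw [hc i]
        _ = M := b.sum_repr M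
  have hfr : Module.finrank F (W.restrictScalars F) = Module.finrank F A := by
    rw [← hΦW, LinearMap.finrank_range_of_inj hΦinj, Module.finrank_fin_fun, Module.finrank_matrix,
      Module.finrank_self, dA.dim]
    ring
  have hfdW : FiniteDimensional F (W.restrictScalars F) := by
    rw [← hΦW]
    infer_instance
  have hfdW' : FiniteDimensional F W := hfdW
  have hstW : IsScalarTower F A W := ⟨fun c a x => Subtype.ext (smul_assoc c a (x : Matrix n n Ω))⟩
  have hfr' : Module.finrank F W = Module.finrank F A := hfr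
  obtain ⟨e⟩ := equiv_of_finrank hfr'
  let w : Matrix n n Ω := e 1
  have hw : w ∈ W := (e 1).2
  have hew : ∀ a, ((e a : W) : Matrix n n Ω) = dA.ι a * w := by
    intro a
    have : e a = a • e 1 := by
      rw [← map_smul, smul_eq_mul, mul_one]
    rw [this]
    rfl
  have hwB : ∀ c : B, w * dB.ι c ∈ W := by
    intro c g
    rw [hinvB, hw g]
  let φ : B → A := fun c => e.symm ⟨w * dB.ι c, hwB c⟩
  have hφ : ∀ c, dA.ι (φ c) * w = w * dB.ι c := by
    intro c
    rw [← hew]
    change ((e (e.symm ⟨w * dB.ι c, hwB c⟩) : W) : Matrix n n Ω) = _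
    rw [e.apply_symm_apply]
  have huniq : ∀ a a', dA.ι a * w = dA.ι a' * w → a = a' := by
    intro a a' h
    apply e.injective
    apply Subtype.ext
    rw [hew, hew, h]
  let ψ : B →ₐ[F] A :=
    { toFun := φ
      map_one' := by
        apply huniq
        rw [hφ, map_one, map_one, Matrix.mul_one, Matrix.one_mul]
      map_mul' := by
        intro x y
        apply huniq
        rw [hφ, map_mul, map_mul, ← Matrix.mul_assoc, ← hφ, Matrix.mul_assoc, ← hφ, Matrix.mul_assoc]
      map_zero' := by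
        apply huniq
        rw [hφ, map_zero, map_zero, Matrix.mul_zero, Matrix.zero_mul]
      map_add' := by
        intro x y
        apply huniq
        rw [hφ, map_add, map_add, Matrix.mul_add, Matrix.add_mul, hφ, hφ]
      commutes' := by
        intro r
        apply huniq
        rw [hφ, AlgHom.commutes, AlgHom.commutes, Algebra.commutes] }
  have hinj : Function.Injective ψ := by
    have := hA2
    exact RingHom.injective ψ.toRingHom
  have hbij : Function.Bijective ψ := by
    refine ⟨hinj, ?_⟩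
    have hdim : Module.finrank F B = Module.finrank F A := by rw [dA.dim, dB.dim]
    exact (LinearMap.injective_iff_surjective_of_finrank_eq_finrank (f := ψ.toLinearMap) hdim).1 hinj
  exact ⟨(AlgEquiv.ofBijective ψ hbij).symm⟩

end BR7.H19
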