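import Pool.Agent.Lib.MP_defcf3_al.BR.StageI

/-!
Project BR7, stage 2, module PI (helper19): splitting data of a tensor product.
-/

open scoped TensorProduct

namespace BR7.H19

open BR7

universe u v

section Kron

variable {Ω : Type u} [Field Ω] {k : ℕ} {n : Fin k → ℕ}

/-- The Kronecker product of a family of square matrices. -/
def kron (M : ∀ i, Matrix (Fin (n i)) (Fin (n i)) Ω) :
    Matrix ((i : Fin k) → Fin (n i)) ((i : Fin k) → Fin (n i)) Ω :=
  Matrix.of fun x y => ∏ i, M i (x i) (y i)

theorem kron_apply (M : ∀ i, Matrix (Fin (n i)) (Fin (n i)) Ω) (x y : (i : Fin k) → Fin (n i)) :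
    kron M x y = ∏ i, M i (x i) (y i) := rfl

theorem kron_mul (M N : ∀ i, Matrix (Fin (n i)) (Fin (n i)) Ω) :
    kron M * kron N = kron (fun i => M i * N i) := by
  ext x y
  rw [Matrix.mul_apply, kron_apply]
  simp only [kron_apply, Matrix.mul_apply]
  rw [Finset.prod_univ_sum, Fintype.piFinset_univ]
  refine Finset.sum_congr rfl fun z _ => ?_
  rw [Finset.prod_mul_distrib]

theorem kron_one : kron (fun i => (1 : Matrix (Fin (n i)) (Fin (n i)) Ω)) = 1 := by
  ext x y
  rw [kron_apply, Matrix.one_apply]
  simp only [Matrix.one_apply]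
  rw [Fintype.prod_ite_zero]
  simp [funext_iff]

theorem kron_map (g : Ω →+* Ω) (M : ∀ i, Matrix (Fin (n i)) (Fin (n i)) Ω) :
    (kron M).map g = kron (fun i => (M i).map g) := by
  ext x y
  simp only [Matrix.map_apply, kron_apply, map_prod]

theorem kron_smul (c : Fin k → Ω) (M : ∀ i, Matrix (Fin (n i)) (Fin (n i)) Ω) :
    kron (fun i => c i • M i) = (∏ i, c i) • kron M := by
  ext x y
  simp only [Matrix.smul_apply, kron_apply, smul_eq_mul, Finset.prod_mul_distrib]

/-- The Kronecker product of invertible matrices. -/
def kronU (M : ∀ i, (Matrix (Fin (n i)) (Fin (n i)) Ω)ˣ) :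
    (Matrix ((i : Fin k) → Fin (n i)) ((i : Fin k) → Fin (n i)) Ω)ˣ where
  val := kron fun i => (M i : Matrix (Fin (n i)) (Fin (n i)) Ω)
  inv := kron fun i => (↑(M i)⁻¹ : Matrix (Fin (n i)) (Fin (n i)) Ω)
  val_inv := by
    rw [kron_mul]
    simp only [Units.mul_inv]
    exact kron_one
  inv_val := by
    rw [kron_mul]
    simp only [Units.inv_mul]
    exact kron_one

/-- Entry of the Kronecker product as a multilinear map. -/
noncomputable def entry (R : Type u) [Field R] [Algebra R Ω] (x y : (i : Fin k) → Fin (n i)) :
    MultilinearMap R (fun i : Fin k => Matrix (Fin (n i)) (Fin (n i)) Ω) Ω :=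
  (MultilinearMap.mkPiAlgebra R (Fin k) Ω).compLinearMap
    (fun i => Matrix.entryLinearMap R Ω (x i) (y i))

theorem entry_apply (R : Type u) [Field R] [Algebra R Ω] (x y : (i : Fin k) → Fin (n i))
    (M : ∀ i, Matrix (Fin (n i)) (Fin (n i)) Ω) : entry R x y M = kron M x y := by
  simp [entry, kron_apply, MultilinearMap.mkPiAlgebra_apply]

/-- The Kronecker product as a multilinear map. -/
noncomputable def kronM (R : Type u) [Field R] [Algebra R Ω] :
    MultilinearMap R (fun i : Fin k => Matrix (Fin (n i)) (Fin (n i)) Ω)
      (Matrix ((i : Fin k) → Fin (n i)) ((i : Fin k) → Fin (n i)) Ω) where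
  toFun := kron
  map_update_add' := by
    intro _ m i a b
    ext x y
    have h := (entry R x y).map_update_add m i a b
    rw [Matrix.add_apply, ← entry_apply R, ← entry_apply R, ← entry_apply R]
    convert h
  map_update_smul' := by
    intro _ m i c a
    ext x y
    have h := (entry R x y).map_update_smul m i c a
    rw [Matrix.smul_apply, ← entry_apply R, ← entry_apply R]
    convert h

theorem kronM_apply (R : Type u) [Field R] [Algebra R Ω] (M : ∀ i, Matrix (Fin (n i)) (Fin (n i)) Ω) :
    kronM R M = kron M := rfl

theorem kron_span (T : ∀ i, Set (Matrix (Fin (n i)) (Fin (n i)) Ω))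
    (hT : ∀ i, Submodule.span Ω (T i) = ⊤) :
    Submodule.span Ω {N | ∃ M : ∀ i, Matrix (Fin (n i)) (Fin (n i)) Ω, (∀ i, M i ∈ T i) ∧ N = kron M} = ⊤ := by
  classical
  set S := Submodule.span Ω {N | ∃ M : ∀ i, Matrix (Fin (n i)) (Fin (n i)) Ω, (∀ i, M i ∈ T i) ∧ N = kron M}
  have key : ∀ s : Finset (Fin k), ∀ M : ∀ i, Matrix (Fin (n i)) (Fin (n i)) Ω,
      (∀ i, i ∉ s → M i ∈ T i) → kron M ∈ S := by
    intro s
    induction s using Finset.induction_on with
    | empty =>
      intro M hM
      exact Submodule.subset_span ⟨M, fun i => hM i (Finset.notMem_empty i), rfl⟩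
    | insert a s ha ih =>
      intro M hM
      have h1 : ∀ X ∈ Submodule.span Ω (T a), kron (Function.update M a X) ∈ S := by
        intro X hX
        induction hX using Submodule.span_induction with
        | mem X hX =>
          apply ih
          intro i hi
          by_cases hia : i = a
          · subst hia
            rw [Function.update_self]
            exact hX
          · rw [Function.update_of_ne hia]
            apply hM
            rw [Finset.mem_insert]
            rintro (h | h)
            · exact hia h
            · exact hi h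
        | zero =>
          have := (kronM Ω).map_update_zero M a
          rw [kronM_apply] at this
          rw [this]
          exact S.zero_mem
        | add X Y _ _ hX hY =>
          have := (kronM Ω).map_update_add M a X Y
          rw [kronM_apply] at this
          rw [this]
          exact S.add_mem hX hY
        | smul c X _ hX =>
          have := (kronM Ω).map_update_smul M a c X
          rw [kronM_apply] at this
          rw [this]
          exact S.smul_mem c hX
      have h2 := h1 (M a) (by rw [hT]; trivial)
      rwa [Function.update_eq_self] at h2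
  rw [eq_top_iff]
  intro N _
  rw [Matrix.matrix_eq_sum_single N]
  refine Submodule.sum_mem _ fun x _ => Submodule.sum_mem _ fun y _ => ?_
  have h3 : Matrix.single x y (N x y) = N x y • kron (fun i => Matrix.single (x i) (y i) (1 : Ω)) := by
    ext p q
    rw [Matrix.smul_apply, kron_apply]
    simp only [Matrix.single_apply, smul_eq_mul]
    rw [Fintype.prod_ite_zero]
    by_cases hpq : x = p ∧ y = q
    · obtain ⟨rfl, rfl⟩ := hpq
      simp
    · rw [if_neg hpq, if_neg, mul_zero]
      intro h
      exact hpq ⟨funext fun i => (h i).1, funext fun i => (h i).2⟩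
  rw [h3]
  exact S.smul_mem _ (key Finset.univ _ fun i hi => absurd (Finset.mem_univ i) hi)

end Kron

theorem pi : PiStatement.{u} := by
  intro F Ω _ _ _ k B _ _ n f hd
  have d := fun i => (hd i).some
  let m : MultilinearMap F B (Matrix ((i : Fin k) → Fin (n i)) ((i : Fin k) → Fin (n i)) Ω) :=
    (kronM F).compLinearMap (fun i => (d i).ι.toLinearMap)
  have hm : ∀ b, m b = kron (fun i => (d i).ι (b i)) := fun b => rfl
  let ι : (⨂[F] i, B i) →ₐ[F] Matrix ((i : Fin k) → Fin (n i)) ((i : Fin k) → Fin (n i)) Ω :=
    PiTensorProduct.liftAlgHom m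
      (by
        rw [hm]
        simp only [Pi.one_apply, map_one]
        exact kron_one)
      (by
        intro x y
        rw [hm, hm, hm, kron_mul]
        simp only [Pi.mul_apply, map_mul])
  have hι : ∀ b : ∀ i, B i, ι (PiTensorProduct.tprod F b) = kron (fun i => (d i).ι (b i)) := by
    intro b
    rw [← hm]
    exact PiTensorProduct.lift.tprod b
  have hne : ∀ i, n i ≠ 0 := by
    intro i h0
    obtain ⟨x⟩ := (d i).ne
    have := x.2
    omega
  refine ⟨⟨ι, fun g => kronU (fun i => (d i).u g), ?_, ?_, ?_, ?_, ?_, ?_⟩⟩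
  · exact ⟨fun i => ⟨0, Nat.pos_of_ne_zero (hne i)⟩⟩
  · have hfd : ∀ i, FiniteDimensional F (B i) := by
      intro i
      apply FiniteDimensional.of_finrank_pos
      rw [(d i).dim, Fintype.card_fin]
      exact pow_pos (Nat.pos_of_ne_zero (hne i)) 2
    rw [Module.finrank_eq_card_basis (Basis.piTensorProduct (fun i => Module.finBasis F (B i))),
      Fintype.card_pi, Fintype.card_pi, ← Finset.prod_pow]
    refine Finset.prod_congr rfl fun i _ => ?_
    rw [Fintype.card_fin, (d i).dim]
  · rw [eq_top_iff, ← kron_span (fun i => Set.range (d i).ι) (fun i => (d i).span)]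
    apply Submodule.span_mono
    rintro N ⟨M, hM, rfl⟩
    choose b hb using hM
    refine ⟨PiTensorProduct.tprod F b, ?_⟩
    rw [hι]
    congr 1
    funext i
    exact hb i
  · have h : ∀ i, IsLocallyConstant (d i).u := fun i => (d i).lc
    have h2 : IsLocallyConstant (fun g i => (d i).u g) := by
      rw [IsLocallyConstant.iff_eventually_eq]
      intro g
      have h3 : ∀ᶠ g' in nhds g, ∀ i, (d i).u g' = (d i).u g := by
        rw [Filter.eventually_all]
        intro i
        exact (IsLocallyConstant.iff_eventually_eq _).1 (h i) g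
      filter_upwards [h3] with g' hg'
      funext i
      exact hg' i
    exact h2.comp kronU
  · intro g a
    induction a using PiTensorProduct.induction_on with
    | smul_tprod r b =>
      rw [map_smul, hι]
      have h1 : (r • kron (fun i => (d i).ι (b i))).map g = r • (kron (fun i => (d i).ι (b i))).map g := by
        ext x y
        rw [Matrix.map_apply, Matrix.smul_apply, Matrix.smul_apply, Matrix.map_apply, map_smul]
      rw [h1, Matrix.mul_smul, Matrix.smul_mul]
      congr 1
      have h2 := kron_map (g : Ω →+* Ω) (fun i => (d i).ι (b i))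
      have h3 : (kron (fun i => (d i).ι (b i))).map g = (kron (fun i => (d i).ι (b i))).map (g : Ω →+* Ω) := rfl
      rw [h3, h2]
      have h4 : (fun i => ((d i).ι (b i)).map (g : Ω →+* Ω)) = fun i =>
          (↑((d i).u g)⁻¹ : Matrix (Fin (n i)) (Fin (n i)) Ω) * (d i).ι (b i) * ((d i).u g : Matrix (Fin (n i)) (Fin (n i)) Ω) := by
        funext i
        exact (d i).tw g (b i)
      rw [h4, ← kron_mul, ← kron_mul]
      rfl
    | add x y hx hy =>
      rw [map_add, Matrix.mul_add, Matrix.add_mul, ← hx, ← hy]
      ext p q
      simp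
  · intro g h
    have h3 : (↑(kronU fun i => (d i).u h) : Matrix ((i : Fin k) → Fin (n i)) ((i : Fin k) → Fin (n i)) Ω).map g =
      kron (fun i => ((d i).u h : Matrix (Fin (n i)) (Fin (n i)) Ω).map (g : Ω →+* Ω)) :=
      kron_map (g : Ω →+* Ω) _
    rw [h3]
    change kron _ * kron _ = _ • kron _
    rw [kron_mul]
    have h4 : (fun i => ((d i).u g : Matrix (Fin (n i)) (Fin (n i)) Ω) *
        ((d i).u h : Matrix (Fin (n i)) (Fin (n i)) Ω).map (g : Ω →+* Ω)) = fun i =>
          (f i g h : Ω) • ((d i).u (g * h) : Matrix (Fin (n i)) (Fin (n i)) Ω) := by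
      funext i
      exact (d i).fac g h
    rw [h4, kron_smul]
    congr 1
    rw [Finset.prod_apply, Finset.prod_apply, Units.coe_prod]

end BR7.H19
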